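import Pool.Agent.Helper88.GU.St

/-!
# Module XH of project GU2 (MP_b1e6de_al): homogeneous elements congruent to `1`
-/

set_option autoImplicit false

namespace Pool.Agent.Helper93.GU2

open Polynomial
open Pool.Agent.Helper91.GU
open Pool.Agent.Helper88.GU

universe u

theorem map_idl {A B : Type u} [CommRing A] [CommRing B] {n : Type} (φ : A →+* B) (c : n → A) :
    (idl c).map φ = idl (fun j => φ (c j)) := by
  unfold idl
  rw [Ideal.map_span, ← Set.range_comp]
  rfl

section theta

variable {A : Type u} [CommRing A] (G : Gr A)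

/-- `θ (C a X^n) = (Γ a)_n` -/
noncomputable def thetaH : A[X] →+ A :=
  AddMonoidHom.mk' (fun P => P.sum fun n a => (G.Γ a).coeff n) (fun p q => by
    apply Polynomial.sum_add_index
    · intro i; simp
    · intro i a b; simp)

theorem thetaH_monomial (n : ℕ) (a : A) : thetaH G (monomial n a) = (G.Γ a).coeff n := by
  show (monomial n a).sum (fun n a => (G.Γ a).coeff n) = _
  rw [Polynomial.sum_monomial_index]
  simp

theorem thetaH_mul (P : A[X]) (f : A) : thetaH G (P * G.Γ f) = thetaH G P * f := by
  induction P using Polynomial.induction_on' with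
  | add p q hp hq => rw [add_mul, map_add, map_add, hp, hq, add_mul]
  | monomial n a =>
    have h1 : monomial n a * G.Γ f
        = ∑ l ∈ Finset.range ((G.Γ f).natDegree + 1), monomial (n + l) (a * (G.Γ f).coeff l) := by
      conv_lhs => rw [(G.Γ f).as_sum_range, Finset.mul_sum]
      apply Finset.sum_congr rfl
      intro l _
      rw [monomial_mul_monomial]
    rw [h1, map_sum, thetaH_monomial]
    have h2 : ∀ l, thetaH G (monomial (n + l) (a * (G.Γ f).coeff l))
        = (G.Γ a).coeff n * (G.Γ f).coeff l := by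
      intro l
      rw [thetaH_monomial, map_mul, G.hom]
      have e : G.Γ a * (C ((G.Γ f).coeff l) * X ^ l) = (C ((G.Γ f).coeff l) * G.Γ a) * X ^ l := by
        ring
      rw [e, coeff_mul_X_pow, coeff_C_mul, mul_comm]
    rw [Finset.sum_congr rfl (fun l _ => h2 l), ← Finset.mul_sum]
    congr 1
    conv_rhs => rw [← G.sum f, eval_eq_sum_range]
    simp

end theta

/-- a root of a polynomial with constant coefficient `1` is a unit -/
theorem unit_of_root {A D : Type u} [CommRing A] [CommRing D] [Algebra A D] (t : D) (P : A[X])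
    (h0 : P.coeff 0 = 1) (h : aeval t P = 0) : ∃ t₁ : D, t * t₁ = 1 := by
  refine ⟨- aeval t P.divX, ?_⟩
  have h1 := P.divX_mul_X_add
  rw [← h1, map_add, map_mul, aeval_X, aeval_C, h0, map_one] at h
  linear_combination -h

theorem hXH (hD8 : StD8.{u}) (hVD : StVD.{u}) : StXH.{u} := by
  intro A _ _ G s c' N hf hM hN hS
  obtain ⟨f, hfI, hf0⟩ := hf
  obtain ⟨M, hM⟩ := hM
  obtain ⟨hV1, -, -, -, -, -, -⟩ := hVD A G
  set IT : Ideal A[X] := idl (fun j => G.Γ (c' j)) with hIT
  have hmap : (idl c').map G.Γ = IT := map_idl G.Γ c'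
  have hmem : ∀ g ∈ idl c', G.Γ g ∈ IT := fun g hg => by
    rw [← hmap]; exact Ideal.mem_map_of_mem _ hg
  have hc : ∀ j, c' j ∈ idl c' := fun j => Ideal.subset_span ⟨j, rfl⟩
  obtain ⟨k₀, hk₀⟩ := hD8 A IT ⟨G.Γ f, hmem f hfI, by rw [hf0]; exact isUnit_one⟩
    (by
      intro D _ _ t t' ht ht'
      obtain ⟨t₁, ht₁⟩ := unit_of_root t (G.Γ f) hf0 (ht _ (hmem f hfI))
      obtain ⟨t₂, ht₂⟩ := unit_of_root t' (G.Γ f) hf0 (ht' _ (hmem f hfI))
      let y : A →+* D := ((aeval t : A[X] →ₐ[A] D) : A[X] →+* D).comp G.Γ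
      set τ : D := t' * t₁ with hτ
      have hy : ∀ a, y a = aeval t (G.Γ a) := fun a => rfl
      have hkey : ∀ a, eval₂ y τ (G.Γ a) = aeval t' (G.Γ a) := by
        intro a
        rw [eval₂_eq_sum_range, aeval_eq_sum_range]
        apply Finset.sum_congr rfl
        intro l _
        rw [hy, G.hom, map_mul, map_pow, aeval_C, aeval_X, Algebra.smul_def, mul_assoc,
          ← mul_pow, hτ]
        have : t * (t' * t₁) = t' := by linear_combination t' * ht₁
        rw [this]
      let E : A[X] →+* D := eval₂RingHom y τ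
      have hEv : ∀ P, E P = eval₂ y τ P := fun P => rfl
      have hJ : ∀ z ∈ Ideal.span (Set.range (fun j => C (c' j)) ∪
          Set.range (fun j => dl G (c' j))), (τ - 1) * E z = 0 := by
        intro z hz
        induction hz using Submodule.span_induction with
        | mem z hz =>
          rcases hz with ⟨j, rfl⟩ | ⟨j, rfl⟩
          · rw [hEv, eval₂_C, hy, ht _ (hmem _ (hc j)), mul_zero]
          · have h1 := congrArg E (hV1 (c' j))
            rw [map_mul, map_sub, map_sub, hEv X, eval₂_X, hEv (C 1), eval₂_C, map_one,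
              hEv (G.Γ (c' j)), hkey, ht' _ (hmem _ (hc j)), hEv (C (c' j)), eval₂_C, hy,
              ht _ (hmem _ (hc j)), sub_zero] at h1
            exact h1
        | zero => rw [map_zero, mul_zero]
        | add z w _ _ hz hw => rw [map_add, mul_add, hz, hw, add_zero]
        | smul r z _ hz =>
          rw [smul_eq_mul, map_mul]
          linear_combination (E r) * hz
      have h1 := hJ _ hM
      rw [map_pow, hEv, eval₂_X] at h1
      have hτu : τ * (t * t₂) = 1 := by
        rw [hτ]
        linear_combination (t' * t₂) * ht₁ + ht₂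
      have h2 : τ - 1 = 0 := by
        have h3 : τ ^ M * (t * t₂) ^ M = 1 := by rw [← mul_pow, hτu, one_pow]
        calc τ - 1 = (τ - 1) * (τ ^ M * (t * t₂) ^ M) := by rw [h3, mul_one]
          _ = ((τ - 1) * τ ^ M) * (t * t₂) ^ M := by ring
          _ = 0 := by rw [h1, zero_mul]
      have h3 : t' * t₁ = 1 := by rw [← hτ]; linear_combination h2
      linear_combination (-t) * h3 + t' * ht₁)
    (by
      refine ⟨{a | a ≠ 0 ∧ ∃ j : Fin s, (G.Γ (c' j.castSucc)).coeff (N j) = a}, ?_, ?_⟩
      · rintro a ⟨ha0, j, rfl⟩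
        have hdeg : (G.Γ (c' j.castSucc)).natDegree = N j :=
          le_antisymm (hN j).2 (le_natDegree_of_ne_zero ha0)
        refine ⟨G.Γ (c' j.castSucc), hmem _ (hc _), ?_, ?_⟩
        · rw [hdeg]; exact (hN j).1
        · rw [leadingCoeff, hdeg]
      · set S : Set A := {a | a ≠ 0 ∧ ∃ j : Fin s, (G.Γ (c' j.castSucc)).coeff (N j) = a} with hSd
        set K := (Ideal.span S).map (algebraMap A (A[X] ⧸ IT)) with hK
        let ρ : A →+* A[X] ⧸ IT := (Ideal.Quotient.mk IT).comp G.Γ
        have h1 : Ideal.span (Set.range fun j : Fin s => (G.Γ (c' j.castSucc)).coeff (N j)) ⊔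
            idl c' ≤ K.comap ρ := by
          refine sup_le ?_ ?_
          · refine Ideal.span_le.2 ?_
            rintro _ ⟨j, rfl⟩
            show ρ ((G.Γ (c' j.castSucc)).coeff (N j)) ∈ K
            by_cases h0 : (G.Γ (c' j.castSucc)).coeff (N j) = 0
            · rw [h0, map_zero]; exact K.zero_mem
            · have h2 : ρ ((G.Γ (c' j.castSucc)).coeff (N j))
                  = algebraMap A (A[X] ⧸ IT) ((G.Γ (c' j.castSucc)).coeff (N j)) *
                    Ideal.Quotient.mk IT (X ^ (N j)) := by
                show Ideal.Quotient.mk IT (G.Γ ((G.Γ (c' j.castSucc)).coeff (N j))) = _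
                rw [G.hom, map_mul]
                rfl
              rw [h2]
              exact Ideal.mul_mem_right _ _ (Ideal.mem_map_of_mem _
                (Ideal.subset_span ⟨h0, j, rfl⟩))
          · intro g hg
            have h2 : ρ g = 0 := Ideal.Quotient.eq_zero_iff_mem.2 (hmem g hg)
            rw [Ideal.mem_comap, h2]
            exact K.zero_mem
        rw [hS] at h1
        have h2 : (1 : A) ∈ K.comap ρ := h1 Submodule.mem_top
        rw [Ideal.mem_comap, map_one] at h2
        exact (Ideal.eq_top_iff_one K).2 h2)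
  -- the elements `a_k`
  have hex : ∀ k, ∃ a : A, k₀ ≤ k → G.Γ a = C a * X ^ k ∧ 1 - a ∈ idl c' := by
    intro k
    by_cases hk : k₀ ≤ k
    · obtain ⟨c, hcI⟩ := hk₀ k hk
      refine ⟨(G.Γ c).coeff k, fun _ => ⟨G.hom c k, ?_⟩⟩
      have hθ : ∀ z ∈ IT, thetaH G z ∈ idl c' := by
        intro z hz
        rw [hIT, idl, Ideal.mem_span_range_iff_exists_fun] at hz
        obtain ⟨P, rfl⟩ := hz
        rw [map_sum]
        refine Ideal.sum_mem _ (fun j _ => ?_)
        rw [thetaH_mul]
        exact Ideal.mul_mem_left _ _ (hc j)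
      have h1 := hθ _ hcI
      have h2 : thetaH G (1 - C c * X ^ k) = 1 - (G.Γ c).coeff k := by
        rw [map_sub, C_mul_X_pow_eq_monomial, thetaH_monomial]
        have h3 : (1 : A[X]) = monomial 0 1 := by simp
        rw [h3, thetaH_monomial, map_one]
        simp
      rw [h2] at h1
      exact h1
    · exact ⟨0, fun h => absurd h hk⟩
  choose a ha using hex
  exact ⟨k₀, a, fun k hk => ha k hk⟩

end Pool.Agent.Helper93.GU2
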